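import Pool.Agent.Q81.Tri4

/-!
# MP_8f6a5a_an, Q1 (disproved), with an upper bound for Q2

For every order `n ≥ 530` there are a tridiagonal matrix `P` satisfying conditions 1-3 of the
problem and a probability vector `c` such that `F = (I - c eᵀ) P` has an eigenvalue of modulus
greater than one.
-/

open Matrix

namespace Pool.Agent.Results.MP_8f6a5a_an.CounterexamplesFrom530

noncomputable section

/-- a real matrix regarded as a complex matrix -/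
def toC {n : ℕ} (M : Matrix (Fin n) (Fin n) ℝ) : Matrix (Fin n) (Fin n) ℂ :=
  M.map (fun t => (t : ℂ))

/-- `μ` is an eigenvalue of the complex matrix `M` -/
def IsEig {n : ℕ} (M : Matrix (Fin n) (Fin n) ℂ) (μ : ℂ) : Prop :=
  ∃ x : Fin n → ℂ, x ≠ 0 ∧ M.mulVec x = μ • x

/-- `ρ` is the spectral radius (the largest modulus of a complex eigenvalue) of `M` -/
def IsSpecRad {n : ℕ} (M : Matrix (Fin n) (Fin n) ℝ) (ρ : ℝ) : Prop :=
  IsGreatest {t : ℝ | ∃ μ : ℂ, IsEig (toC M) μ ∧ t = ‖μ‖} ρ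

/-- Conditions 1-3 of the problem on the real symmetric matrix `P`. -/
structure Conditions {n : ℕ} (P : Matrix (Fin n) (Fin n) ℝ) : Prop where
  symmetric : P.IsSymm
  zero_off : ∀ r s : Fin n, ((r : ℕ) + 1 < s ∨ (s : ℕ) + 1 < r) → P r s = 0
  pos_band : ∀ r s : Fin n, ((r : ℕ) ≤ s + 1 ∧ (s : ℕ) ≤ r + 1) → 0 < P r s
  spectral : IsSpecRad P 1
  column : ∀ s : Fin n,
    ∑ r ∈ Finset.univ.filter (fun r : Fin n => (r : ℕ) + 1 = s ∨ (s : ℕ) + 1 = r), P r s ≤ 1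

/-- `F = (I - c eᵀ) P`, `e` the all-ones vector -/
def modified {n : ℕ} (c : Fin n → ℝ) (P : Matrix (Fin n) (Fin n) ℝ) : Matrix (Fin n) (Fin n) ℝ :=
  (1 - Matrix.vecMulVec c (fun _ => 1)) * P

/-- For every `n ≥ 530` the assertion `ρ(F) ≤ 1` fails for some admissible `P`, `c` of order `n`. -/
theorem result (n : ℕ) (hn : 530 ≤ n) :
    ∃ P : Matrix (Fin n) (Fin n) ℝ, ∃ c : Fin n → ℝ,
      Conditions P ∧ (∀ s, 0 ≤ c s) ∧ ∑ s, c s = 1 ∧
      ∃ μ : ℂ, IsEig (toC (modified c P)) μ ∧ 1 < ‖μ‖ := by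
  obtain ⟨P, c, hP, hc0, hc1, μ, hμ, hμ1⟩ := Pool.Agent.Q81.Tri.main hn
  exact ⟨P, c, ⟨hP.symm, hP.zero, hP.pos, hP.spec, hP.col⟩, hc0, hc1, μ, hμ, hμ1⟩

end

end Pool.Agent.Results.MP_8f6a5a_an.CounterexamplesFrom530
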